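import Pool.Agent.Helper14.LK.St
import Pool.Agent.Helper14.LK.Basic

/-!
Project LK (MP_58b586_gt), module KA: smoothness and derivative of the averages.
-/

set_option autoImplicit false

namespace Pool.Agent.Helper52.LK

open Pool.Agent.Helper14.LK
open scoped ContDiff Topology
open MeasureTheory Set Filter

private theorem contDiff_act {n : ℕ} {F : Type} [NormedAddCommGroup F] [NormedSpace ℝ F] {Z : F → KK n} {r : F → ℝ}
    {y : F → EE n} (hZ : ContDiff ℝ ∞ Z) (hr : ContDiff ℝ ∞ r) (hy : ContDiff ℝ ∞ y) :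
    ContDiff ℝ ∞ fun q => act (Z q) (r q) (y q) := by
  unfold act
  have h1 : ContDiff ℝ ∞ fun q => (Z q).1 := contDiff_fst.comp hZ
  have h2 : ∀ j, ContDiff ℝ ∞ fun q => (y q) j := fun j => (EuclideanSpace.proj j : EE n →L[ℝ] ℝ).contDiff.comp hy
  have h3 : ∀ j, ContDiff ℝ ∞ fun q => (Z q).2 j := fun j =>
    (ContinuousLinearMap.proj j : (Fin n → EE n) →L[ℝ] EE n).contDiff.comp (contDiff_snd.comp hZ)
  exact (hr.smul h1).add (ContDiff.sum fun j _ => (h2 j).smul (h3 j))

private theorem smo_eq {n : ℕ} {G : Type} [NormedAddCommGroup G] [NormedSpace ℝ G] {ψ : KK n → ℝ}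
    (h0 : ∀ z, 1 ≤ ‖z‖ → ψ z = 0) (g : EE n → G) (r : ℝ) (x y : EE n) :
    smo ψ g r x y = ∫ z in Metric.closedBall (0 : KK n) 1, ψ z • g (x + act z r y) := by
  unfold smo
  refine (setIntegral_eq_integral_of_forall_compl_eq_zero fun z hz => ?_).symm
  rw [mem_closedBall_zero_iff, not_le] at hz
  rw [h0 z hz.le, zero_smul]

/-- the linear map `(u, v) ↦ u + Σ v_j z_j` -/
private noncomputable def La {n : ℕ} (z : KK n) : WW n →L[ℝ] EE n :=
  ContinuousLinearMap.fst ℝ (EE n) (EE n) +
    ∑ j, ((EuclideanSpace.proj j : EE n →L[ℝ] ℝ).comp (ContinuousLinearMap.snd ℝ (EE n) (EE n))).smulRight (z.2 j)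

private theorem La_apply {n : ℕ} (z : KK n) (u v : EE n) : La z (u, v) = u + ∑ j, v j • z.2 j := by
  simp [La]

private theorem hasFDerivAt_arg {n : ℕ} (z : KK n) (r : ℝ) (w : WW n) :
    HasFDerivAt (fun w : WW n => w.1 + act z r w.2) (La z) w := by
  have e : (fun w : WW n => w.1 + act z r w.2) = fun w => La z w + r • z.1 := by
    funext w
    have h1 : La z w = w.1 + ∑ j, w.2 j • z.2 j := La_apply z w.1 w.2
    rw [h1]
    unfold act
    abel
  rw [e]
  exact (La z).hasFDerivAt.add_const _

private theorem sum_single {n : ℕ} (a : EE n) : a = ∑ i, a i • EuclideanSpace.single i (1 : ℝ) := by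
  ext l
  simp [Finset.sum_apply, Pi.single_apply]

theorem hKA (hPAR : StPAR) : StKA := by
  intro n G _ _ _ ψ g hψ h0 hg
  refine ⟨?_, fun r x y u v => ?_⟩
  · have h1 := (hPAR (KK n) (ℝ × WW n) G volume (Metric.closedBall 0 1) (isCompact_closedBall _ _)
      (fun p z => ψ z • g (p.2.1 + act z p.1 p.2.2)) ?_).1
    · have e : (fun p : ℝ × WW n => smo ψ g p.1 p.2.1 p.2.2) = fun p =>
          ∫ z in Metric.closedBall (0 : KK n) 1, ψ z • g (p.2.1 + act z p.1 p.2.2) := by
        funext p
        exact smo_eq h0 g _ _ _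
      rw [e]
      exact h1
    · show ContDiff ℝ ∞ fun q : (ℝ × WW n) × KK n => ψ q.2 • g (q.1.2.1 + act q.2 q.1.1 q.1.2.2)
      refine (hψ.comp contDiff_snd).smul (hg.comp (ContDiff.add ?_ (contDiff_act contDiff_snd ?_ ?_)))
      · exact contDiff_fst.comp (contDiff_snd.comp contDiff_fst)
      · exact contDiff_fst.comp contDiff_fst
      · exact contDiff_snd.comp (contDiff_snd.comp contDiff_fst)
  · have hF : ContDiff ℝ ∞ (Function.uncurry fun (w : WW n) (z : KK n) => ψ z • g (w.1 + act z r w.2)) := by
      show ContDiff ℝ ∞ fun q : WW n × KK n => ψ q.2 • g (q.1.1 + act q.2 r q.1.2)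
      refine (hψ.comp contDiff_snd).smul (hg.comp (ContDiff.add ?_ (contDiff_act contDiff_snd contDiff_const ?_)))
      · exact contDiff_fst.comp contDiff_fst
      · exact contDiff_snd.comp contDiff_fst
    have h1 := (hPAR (KK n) (WW n) G volume (Metric.closedBall 0 1) (isCompact_closedBall _ _)
      (fun w z => ψ z • g (w.1 + act z r w.2)) hF).2 (x, y) (u, v)
    have e : (fun w : WW n => smo ψ g r w.1 w.2) = fun w =>
        ∫ z in Metric.closedBall (0 : KK n) 1, ψ z • g (w.1 + act z r w.2) := by
      funext w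
      exact smo_eq h0 g _ _ _
    rw [e, h1]
    have hg1 : Differentiable ℝ g := hg.differentiable (by norm_num)
    have hψc : Continuous ψ := hψ.continuous
    have hargc : Continuous fun z : KK n => x + act z r y :=
      (contDiff_const.add (contDiff_act contDiff_id contDiff_const contDiff_const)).continuous
    have hdc : Continuous fun z : KK n => fderiv ℝ g (x + act z r y) :=
      (hg.continuous_fderiv (by norm_num)).comp hargc
    -- the integrand
    have e2 : ∀ z : KK n, fderiv ℝ (fun w : WW n => ψ z • g (w.1 + act z r w.2)) (x, y) (u, v) =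
        ψ z • fderiv ℝ g (x + act z r y) u +
          ∑ j, ∑ i, v j • ((ψ z * z.2 j i) • fderiv ℝ g (x + act z r y) (EuclideanSpace.single i 1)) := by
      intro z
      have h2 : HasFDerivAt (fun w : WW n => g (w.1 + act z r w.2)) ((fderiv ℝ g (x + act z r y)).comp (La z)) (x, y) :=
        HasFDerivAt.comp (x, y) (hg1 (x + act z r y)).hasFDerivAt (hasFDerivAt_arg z r (x, y))
      have h3 := (h2.const_smul (ψ z)).fderiv
      have h4 : fderiv ℝ (fun w : WW n => ψ z • g (w.1 + act z r w.2)) (x, y) =
          ψ z • (fderiv ℝ g (x + act z r y)).comp (La z) := h3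
      rw [h4, smul_apply, ContinuousLinearMap.comp_apply, La_apply, map_add, smul_add, map_sum,
        Finset.smul_sum]
      congr 1
      refine Finset.sum_congr rfl fun j _ => ?_
      rw [map_smul]
      conv_lhs => rw [sum_single (z.2 j)]
      rw [map_sum, Finset.smul_sum, Finset.smul_sum]
      refine Finset.sum_congr rfl fun i _ => ?_
      rw [map_smul, smul_smul, smul_smul, smul_smul]
      congr 1
      ring
    have hI1 : IntegrableOn (fun z : KK n => ψ z • fderiv ℝ g (x + act z r y) u) (Metric.closedBall 0 1) volume :=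
      (hψc.smul (hdc.clm_apply continuous_const)).continuousOn.integrableOn_compact (isCompact_closedBall _ _)
    have hI2 : ∀ j i, IntegrableOn (fun z : KK n => v j • ((ψ z * z.2 j i) •
        fderiv ℝ g (x + act z r y) (EuclideanSpace.single i 1))) (Metric.closedBall 0 1) volume := by
      intro j i
      have hc : Continuous fun z : KK n => z.2 j i :=
        (EuclideanSpace.proj i : EE n →L[ℝ] ℝ).continuous.comp
          ((ContinuousLinearMap.proj j : (Fin n → EE n) →L[ℝ] EE n).continuous.comp continuous_snd)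
      exact (continuous_const.smul ((hψc.mul hc).smul (hdc.clm_apply continuous_const))).continuousOn.integrableOn_compact
        (isCompact_closedBall _ _)
    rw [integral_congr_ae (Eventually.of_forall e2), integral_add hI1 (integrable_finsetSum _ fun j _ =>
      integrable_finsetSum _ fun i _ => hI2 j i), integral_finsetSum _ fun j _ =>
      integrable_finsetSum _ fun i _ => hI2 j i]
    have e3 : smo ψ (fun x' => fderiv ℝ g x' u) r x y =
        ∫ z in Metric.closedBall (0 : KK n) 1, ψ z • fderiv ℝ g (x + act z r y) u := smo_eq h0 _ r x y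
    rw [e3]
    congr 1
    refine Finset.sum_congr rfl fun j _ => ?_
    rw [integral_finsetSum _ fun i _ => hI2 j i]
    refine Finset.sum_congr rfl fun i _ => ?_
    rw [integral_smul]
    congr 1
    have h5 : ∀ z : KK n, 1 ≤ ‖z‖ → ψ z * z.2 j i = 0 := fun z hz => by rw [h0 z hz, zero_mul]
    exact (smo_eq h5 (fun x' => fderiv ℝ g x' (EuclideanSpace.single i 1)) r x y).symm

end Pool.Agent.Helper52.LK
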